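import Pool.Agent.helper78.NLS.Spec

set_option autoImplicit false

open Complex Metric Set Filter Topology MeasureTheory MPS
open Pool.Agent.helper98.ILF Pool.Agent.helper16.Multibrot
open scoped ENNReal

noncomputable section

namespace NLS

/-- dominated convergence in `L²`. -/
lemma DEL_dc (G : ℕ → ℂ → ℂ) (B : ℂ → ℂ) (hG : ∀ k, AEStronglyMeasurable (G k) volume)
    (hB : MemLp B 2 volume) (hle : ∀ k, ∀ᵐ z : ℂ, ‖G k z‖ ≤ ‖B z‖)
    (h0 : ∀ᵐ z : ℂ, Tendsto (fun k => G k z) atTop (𝓝 0)) :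
    Tendsto (fun k => eLpNorm (G k) 2 volume) atTop (𝓝 0) := by
  have e : ∀ F : ℂ → ℂ, eLpNorm F 2 volume = (∫⁻ z, ‖F z‖ₑ ^ (2 : ℝ)) ^ (1 / (2 : ℝ)) := by
    intro F
    rw [eLpNorm_eq_lintegral_rpow_enorm_toReal (by norm_num) (by norm_num)]
    norm_num
  have hBf : ∫⁻ z, ‖B z‖ₑ ^ (2 : ℝ) ≠ ∞ := by
    have h1 := hB.2
    rw [e B] at h1
    intro h
    rw [h] at h1
    norm_num at h1
  have h1 : Tendsto (fun k => ∫⁻ z, ‖G k z‖ₑ ^ (2 : ℝ)) atTop (𝓝 (∫⁻ z : ℂ, (0 : ℝ≥0∞))) := by
    apply tendsto_lintegral_of_dominated_convergence' (fun z => ‖B z‖ₑ ^ (2 : ℝ))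
    · intro k
      exact ((hG k).enorm).pow_const _
    · intro k
      filter_upwards [hle k] with z hz
      have : ‖G k z‖ₑ ≤ ‖B z‖ₑ := by
        exact enorm_le_iff_norm_le.mpr hz
      exact ENNReal.rpow_le_rpow this (by norm_num)
    · exact hBf
    · filter_upwards [h0] with z hz
      have h2 : Tendsto (fun k => ‖G k z‖ₑ) atTop (𝓝 0) := by
        have := hz.enorm
        simpa using this
      have h3 := h2.ennrpow_const (2 : ℝ)
      simpa using h3
  simp only [lintegral_zero] at h1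
  have h4 := h1.ennrpow_const (1 / (2 : ℝ))
  have h5 : ((0 : ℝ≥0∞)) ^ (1 / (2 : ℝ)) = 0 := by
    rw [ENNReal.zero_rpow_of_pos (by norm_num)]
  rw [h5] at h4
  refine h4.congr ?_
  intro k
  rw [e (G k)]

/-- the coefficient `q`. -/
def DEL_q (n : ℕ) (c : ℂ) (m : ℂ → ℂ) (z : ℂ) : ℂ :=
  m (ff n c z) * (starRingEnd ℂ) (fd n z) - m z * fd n z

lemma DEL_fd_cont (n : ℕ) : Continuous (fun z => fd n z) := by
  unfold fd
  fun_prop

lemma DEL_ff_cont (n : ℕ) (c : ℂ) : Continuous (fun z => ff n c z) := by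
  unfold ff
  fun_prop

lemma DEL_q_cont (n : ℕ) (c : ℂ) (m : ℂ → ℂ) (hm : Continuous m) : Continuous (DEL_q n c m) := by
  unfold DEL_q
  have h1 := DEL_fd_cont n
  have h2 := DEL_ff_cont n c
  exact ((hm.comp h2).mul (continuous_conj.comp h1)).sub (hm.mul h1)

lemma DEL_q_le (n : ℕ) (c : ℂ) (m : ℂ → ℂ) (hm : ∀ z, ‖m z‖ ≤ 1) (z : ℂ) :
    ‖DEL_q n c m z‖ ≤ 2 * ‖fd n z‖ := by
  unfold DEL_q
  calc ‖m (ff n c z) * (starRingEnd ℂ) (fd n z) - m z * fd n z‖
      ≤ ‖m (ff n c z) * (starRingEnd ℂ) (fd n z)‖ + ‖m z * fd n z‖ := norm_sub_le _ _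
    _ = ‖m (ff n c z)‖ * ‖fd n z‖ + ‖m z‖ * ‖fd n z‖ := by
        rw [norm_mul, norm_mul, RCLike.norm_conj]
    _ ≤ 1 * ‖fd n z‖ + 1 * ‖fd n z‖ := by
        gcongr
        · exact hm _
        · exact hm _
    _ = 2 * ‖fd n z‖ := by ring

lemma DEL_q_zero (n : ℕ) (c : ℂ) (m : ℂ → ℂ) (hn : 2 ≤ n) (hc : ‖c‖ ≤ 3) (hm : ∀ z, 5 ≤ ‖z‖ → m z = 0)
    (z : ℂ) (hz : 5 ≤ ‖z‖) : DEL_q n c m z = 0 := by
  have h1 : 5 ≤ ‖ff n c z‖ := by
    unfold ff
    have h2 : ‖z‖ ^ 2 ≤ ‖z‖ ^ n := pow_le_pow_right₀ (by linarith) hn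
    have h3 : ‖z ^ n‖ ≤ ‖z ^ n + c‖ + ‖c‖ := by
      calc ‖z ^ n‖ = ‖(z ^ n + c) - c‖ := by ring_nf
        _ ≤ _ := norm_sub_le _ _
    rw [norm_pow] at h3
    nlinarith
  unfold DEL_q
  rw [hm z hz, hm _ h1]
  ring

lemma DEL_tw (u v : ℂ → ℂ) : eLpNorm (fun z => u z + v z) 2 volume ≤ eLpNorm u 2 volume + eLpNorm v 2 volume ∨
    ¬ (AEStronglyMeasurable u volume ∧ AEStronglyMeasurable v volume) := by
  by_cases h : AEStronglyMeasurable u volume ∧ AEStronglyMeasurable v volume
  · left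
    exact eLpNorm_add_le h.1 h.2 (by norm_num)
  · right
    exact h

theorem DEL (hL2C : L2C_stmt) (hCHV : CHV_stmt) (hALG : ALG_stmt) (hPSP : PSP_stmt) : DEL_stmt := by
  intro n c m μ hn hc hμm hμ1 hμ4 hm hmt hinv j
  have hn1 : 1 ≤ n := by omega
  obtain ⟨hnull, hch⟩ := hCHV n c hn1
  have hmc : ∀ k, Continuous (m k) := fun k => (hm k).1.sm.continuous
  have hq0 : ∀ᵐ z : ℂ, Tendsto (fun k => DEL_q n c (m k) z) atTop (𝓝 0) := by
    have h1 : ∀ᵐ z : ℂ, Tendsto (fun k => m k (ff n c z)) atTop (𝓝 (μ (ff n c z))) := by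
      have h2 := hmt
      rw [ae_iff] at h2
      have h3 := hnull _ h2
      rw [ae_iff]
      exact h3
    filter_upwards [h1, hmt, hinv] with z hz1 hz2 hz3
    have h4 : μ (ff n c z) * (starRingEnd ℂ) (fd n z) - μ z * fd n z = 0 := by
      by_cases hf : fd n z = 0
      · rw [hf]; simp
      · have h5 : μ (ff n c z) * (starRingEnd ℂ) (fd n z) = μ z * fd n z := by
          rw [div_eq_iff hf] at hz3
          exact hz3
        rw [h5]; ring
    have h6 := (hz1.mul_const ((starRingEnd ℂ) (fd n z))).sub (hz2.mul_const (fd n z))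
    rw [h4] at h6
    exact h6
  have hqm : ∀ k, Continuous (DEL_q n c (m k)) := fun k => DEL_q_cont n c (m k) (hmc k)
  have hde : ∀ k i z, de n c (m k) i z = DEL_q n c (m k) z * dd (ps (m k) i) (ff n c z) := by
    intro k i z
    rfl
  cases j with
  | zero =>
    have hdd : ∀ k z, de n c (m k) 0 z = DEL_q n c (m k) z := by
      intro k z
      rw [hde]
      have h7 : dd (ps (m k) 0) (ff n c z) = 1 := by
        have h8 := hALG.2.2.2.2.2.1.2 (ff n c z)
        exact h8.1
      rw [h7, mul_one]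
    have hB : MemLp (fun z : ℂ => (ball (0 : ℂ) 5).indicator (fun z => 2 * fd n z) z) 2 volume := by
      rw [memLp_indicator_iff_restrict measurableSet_ball]
      have hfin : IsFiniteMeasure (volume.restrict (ball (0 : ℂ) 5)) := by
        refine ⟨?_⟩
        rw [Measure.restrict_apply_univ]
        exact measure_ball_lt_top
      obtain ⟨C, hC⟩ := (isCompact_closedBall (0 : ℂ) 5).exists_bound_of_continuousOn
        (f := fun z => 2 * fd n z) ((continuous_const.mul (DEL_fd_cont n)).continuousOn)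
      refine MemLp.of_bound (C := C) ?_ ?_
      · exact ((continuous_const.mul (DEL_fd_cont n)).aestronglyMeasurable).restrict
      · refine (ae_restrict_iff' measurableSet_ball).mpr (Eventually.of_forall ?_)
        intro z hz
        exact hC z (ball_subset_closedBall hz)
    have h9 := DEL_dc (fun k => DEL_q n c (m k)) _ (fun k => (hqm k).aestronglyMeasurable) hB ?_ hq0
    · refine h9.congr ?_
      intro k
      congr 1
      funext z
      exact (hdd k z).symm
    · intro k
      refine Eventually.of_forall ?_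
      intro z
      by_cases hz : z ∈ ball (0 : ℂ) 5
      · rw [indicator_of_mem hz, norm_mul]
        have := DEL_q_le n c (m k) (hm k).2 z
        simpa using this
      · rw [indicator_of_notMem hz]
        have hz' : 5 ≤ ‖z‖ := by
          simpa [mem_ball, dist_zero_right] using hz
        rw [DEL_q_zero n c (m k) hn hc (hm k).1.supp z hz']
  | succ i =>
    obtain ⟨H, s, hH0, hHs, hs0, hsL, hHe, hHn, hHt, hst⟩ := hL2C m μ hμm hμ1 hμ4 hm hmt
    have hddc : ∀ k, Continuous (dd (ps (m k) (i + 1))) := by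
      intro k
      have h1 := (hPSP n 5 (m k) hn1 (by norm_num) (hm k).1 (hm k).2).1 (i + 1)
      exact (hALG.2.1 _ h1.1).2.1.continuous
    have hsm : AEStronglyMeasurable (s (i + 1)) volume := (hsL i).1
    -- the first part
    let u : ℕ → ℂ → ℂ := fun k z => dd (ps (m k) (i + 1)) z - s (i + 1) z
    have hum : ∀ k, AEStronglyMeasurable (u k) volume := fun k => ((hddc k).aestronglyMeasurable).sub hsm
    let A : ℕ → ℂ → ℂ := fun k z => DEL_q n c (m k) z * u k (ff n c z)
    let B : ℕ → ℂ → ℂ := fun k z => DEL_q n c (m k) z * s (i + 1) (ff n c z)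
    have hdeAB : ∀ k z, de n c (m k) (i + 1) z = A k z + B k z := by
      intro k z
      rw [hde]
      simp only [A, B, u]
      ring
    have hcomp : ∀ v : ℂ → ℂ, AEStronglyMeasurable v volume → AEStronglyMeasurable (fun z => v (ff n c z)) volume := by
      intro v hv
      obtain ⟨w, hw, hvw⟩ := hv
      refine ⟨fun z => w (ff n c z), hw.comp_measurable (DEL_ff_cont n c).measurable, ?_⟩
      have h2 := hvw
      rw [Filter.EventuallyEq, ae_iff] at h2
      have h3 := hnull _ h2
      rw [Filter.EventuallyEq, ae_iff]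
      exact h3
    have hAm : ∀ k, AEStronglyMeasurable (A k) volume := fun k =>
      ((hqm k).aestronglyMeasurable).mul (hcomp _ (hum k))
    have hBm : ∀ k, AEStronglyMeasurable (B k) volume := fun k =>
      ((hqm k).aestronglyMeasurable).mul (hcomp _ hsm)
    -- bound of A
    have hAle : ∀ k, eLpNorm (A k) 2 volume ≤ 2 * ((n : ℝ≥0∞) * eLpNorm (u k) 2 volume) := by
      intro k
      have h1 : eLpNorm (A k) 2 volume ≤ eLpNorm (fun z => (2 : ℂ) * (u k (ff n c z) * fd n z)) 2 volume := by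
        apply eLpNorm_mono
        intro z
        have h2 := DEL_q_le n c (m k) (hm k).2 z
        calc ‖A k z‖ = ‖DEL_q n c (m k) z‖ * ‖u k (ff n c z)‖ := norm_mul _ _
          _ ≤ (2 * ‖fd n z‖) * ‖u k (ff n c z)‖ := by gcongr
          _ = ‖(2 : ℂ) * (u k (ff n c z) * fd n z)‖ := by
              rw [norm_mul, norm_mul]
              simp
              ring
      have h3 : eLpNorm (fun z => (2 : ℂ) * (u k (ff n c z) * fd n z)) 2 volume
          = 2 * eLpNorm (fun z => (u k (ff n c z) * fd n z)) 2 volume := by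
        have := eLpNorm_const_smul (2 : ℂ) (fun z => (u k (ff n c z) * fd n z)) 2 (volume : Measure ℂ)
        have h4 : (‖(2 : ℂ)‖ₑ : ℝ≥0∞) = 2 := by
          rw [← ofReal_norm]
          simp
        rw [h4] at this
        exact this
      rw [h3] at h1
      refine h1.trans ?_
      gcongr
      exact (hch (u k) (hum k)).2
    have hA0 : Tendsto (fun k => eLpNorm (A k) 2 volume) atTop (𝓝 0) := by
      have h1 : Tendsto (fun k => eLpNorm (u k) 2 volume) atTop (𝓝 0) := hst i
      have h2 : Tendsto (fun k => 2 * ((n : ℝ≥0∞) * eLpNorm (u k) 2 volume)) atTop (𝓝 (2 * ((n : ℝ≥0∞) * 0))) := by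
        apply ENNReal.Tendsto.const_mul
        · apply ENNReal.Tendsto.const_mul h1
          right
          exact ENNReal.natCast_ne_top n
        · right
          norm_num
      simp only [mul_zero] at h2
      exact tendsto_of_tendsto_of_tendsto_of_le_of_le tendsto_const_nhds h2 (fun k => zero_le) hAle
    -- B tends to zero
    have hB0 : Tendsto (fun k => eLpNorm (B k) 2 volume) atTop (𝓝 0) := by
      have hL : MemLp (fun z => (2 : ℂ) * (s (i + 1) (ff n c z) * fd n z)) 2 volume := by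
        apply MemLp.const_mul
        refine ⟨(hch _ hsm).1, ?_⟩
        refine lt_of_le_of_lt (hch _ hsm).2 ?_
        exact ENNReal.mul_lt_top (ENNReal.natCast_lt_top n) (hsL i).2
      refine DEL_dc B _ hBm hL ?_ ?_
      · intro k
        refine Eventually.of_forall ?_
        intro z
        have h2 := DEL_q_le n c (m k) (hm k).2 z
        calc ‖B k z‖ = ‖DEL_q n c (m k) z‖ * ‖s (i + 1) (ff n c z)‖ := norm_mul _ _
          _ ≤ (2 * ‖fd n z‖) * ‖s (i + 1) (ff n c z)‖ := by gcongr
          _ = ‖(2 : ℂ) * (s (i + 1) (ff n c z) * fd n z)‖ := by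
              rw [norm_mul, norm_mul]
              simp
              ring
      · filter_upwards [hq0] with z hz
        have := hz.mul_const (s (i + 1) (ff n c z))
        simpa using this
    have hsum := hA0.add hB0
    simp only [add_zero] at hsum
    refine tendsto_of_tendsto_of_tendsto_of_le_of_le tendsto_const_nhds hsum (fun k => zero_le) ?_
    intro k
    have h1 : de n c (m k) (i + 1) = fun z => A k z + B k z := by
      funext z
      exact hdeAB k z
    show eLpNorm (de n c (m k) (i + 1)) 2 volume ≤ _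
    rw [h1]
    exact eLpNorm_add_le (hAm k) (hBm k) (by norm_num)

end NLS
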